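import Pool.Agent.H14.AVS.S3

/-!
# Board avs, module RII: the rings `O / t^(-N)` at infinity
-/

set_option autoImplicit false

namespace Pool.AVS.RII

open Polynomial Matrix Pool.AVR Pool.AVS

variable {F : Type} [Field F]

/-- Evaluation at `1/t`. -/
noncomputable def ps : F[X] →+* RatFunc F :=
  eval₂RingHom (algebraMap F (RatFunc F)) (RatFunc.X)⁻¹

theorem t_ne : (RatFunc.X : RatFunc F) ≠ 0 := RatFunc.X_ne_zero

theorem ps_reflect (M : ℕ) (p : F[X]) (hp : p.natDegree ≤ M) :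
    ps (p.reflect M) = algebraMap F[X] (RatFunc F) p / RatFunc.X ^ M := by
  let _ : Invertible (RatFunc.X : RatFunc F) := invertibleOfNonzero t_ne
  have h := eval₂_reflect_mul_pow (algebraMap F (RatFunc F)) (RatFunc.X : RatFunc F) M p hp
  rw [invOf_eq_inv] at h
  rw [eq_div_iff (pow_ne_zero _ t_ne)]
  have h2 : eval₂ (algebraMap F (RatFunc F)) (RatFunc.X : RatFunc F) p =
      algebraMap F[X] (RatFunc F) p := by
    have h3 : (eval₂RingHom (algebraMap F (RatFunc F)) (RatFunc.X : RatFunc F)) =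
        algebraMap F[X] (RatFunc F) := by
      apply Polynomial.ringHom_ext
      · intro a
        simp
      · simp
    exact congrArg (fun g : F[X] →+* RatFunc F => g p) h3
  rw [← h2, ← h]
  rfl

theorem ps_X : ps (X : F[X]) = (RatFunc.X : RatFunc F)⁻¹ := by simp [ps]

theorem intDegree_t_pow (k : ℕ) : ((RatFunc.X : RatFunc F) ^ k).intDegree = k := by
  induction k with
  | zero => simp
  | succ k ih =>
    rw [pow_succ, RatFunc.intDegree_mul (pow_ne_zero _ t_ne) t_ne, ih, RatFunc.intDegree_X]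
    push_cast; ring

theorem ps_eq (p : F[X]) :
    ps p = algebraMap F[X] (RatFunc F) p.reverse / RatFunc.X ^ p.natDegree := by
  have h := ps_reflect p.natDegree p.reverse (reverse_natDegree_le p)
  rw [reverse, reflect_reflect] at h
  exact h

theorem ps_ne {p : F[X]} (hp : p ≠ 0) : ps p ≠ 0 := by
  rw [ps_eq]
  refine div_ne_zero ?_ (pow_ne_zero _ t_ne)
  intro h
  have h2 : p.reverse = 0 := by
    apply (IsFractionRing.injective F[X] (RatFunc F))
    rw [h, map_zero]
  exact hp (reverse_eq_zero.mp h2)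

theorem intDegree_ps {p : F[X]} (hp : p ≠ 0) : (ps p).intDegree = -(p.natTrailingDegree : ℤ) := by
  have h1 : algebraMap F[X] (RatFunc F) p.reverse ≠ 0 := by
    intro h
    apply ps_ne hp
    rw [ps_eq, h, zero_div]
  rw [ps_eq, RatFunc.intDegree_div h1 (pow_ne_zero _ t_ne), RatFunc.intDegree_polynomial,
    intDegree_t_pow, reverse_natDegree]
  have := natTrailingDegree_le_natDegree p
  omega

theorem ps_mem (p : F[X]) : ps p ∈ OInf F := by
  by_cases hp : p = 0
  · subst hp; rw [map_zero]; exact (OInf F).zero_mem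
  · show (ps p).intDegree ≤ 0
    rw [intDegree_ps hp]; omega

theorem ps_div_mem (p : F[X]) (N : ℕ) :
    ps p / ((RatFunc.X : RatFunc F)⁻¹) ^ N ∈ OInf F ↔ X ^ N ∣ p := by
  by_cases hp : p = 0
  · subst hp
    rw [map_zero, zero_div]
    exact ⟨fun _ => dvd_zero _, fun _ => (OInf F).zero_mem⟩
  · have h1 : ps p / ((RatFunc.X : RatFunc F)⁻¹) ^ N = ps p * RatFunc.X ^ N := by
      rw [inv_pow, div_inv_eq_mul]
    rw [h1]
    show (ps p * RatFunc.X ^ N).intDegree ≤ 0 ↔ _
    rw [RatFunc.intDegree_mul (ps_ne hp) (pow_ne_zero _ t_ne), intDegree_ps hp, intDegree_t_pow,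
      X_pow_dvd_iff]
    constructor
    · intro h d hd
      apply coeff_eq_zero_of_lt_natTrailingDegree
      omega
    · intro h
      have : N ≤ p.natTrailingDegree := le_natTrailingDegree hp h
      omega

/-- Approximation of rational functions regular at infinity by polynomials in `1/t`. -/
theorem approx (x : RatFunc F) (hx : x ∈ OInf F) (N : ℕ) :
    ∃ p : F[X], (x - ps p) / ((RatFunc.X : RatFunc F)⁻¹) ^ N ∈ OInf F := by
  set d := x.denom.natDegree with hd
  have hn : x.num.natDegree ≤ d := by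
    have : x.intDegree ≤ 0 := hx
    rw [RatFunc.intDegree] at this
    omega
  set a := x.num.reflect d with ha
  set b := x.denom.reflect d with hb
  have hxab : x = ps a / ps b := by
    rw [ha, hb, ps_reflect d _ hn, ps_reflect d _ le_rfl, div_div_div_cancel_right₀ (pow_ne_zero _ t_ne)]
    exact (RatFunc.num_div_denom x).symm
  have hb0 : b.coeff 0 ≠ 0 := by
    rw [hb, coeff_reflect, revAt_le (Nat.zero_le _), Nat.sub_zero, hd, coeff_natDegree]
    exact leadingCoeff_ne_zero.mpr x.denom_ne_zero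
  have hbne : b ≠ 0 := by rintro h; rw [h] at hb0; simp at hb0
  have hbt : b.natTrailingDegree = 0 := by
    rw [natTrailingDegree_eq_zero]; exact Or.inr hb0
  have hcop : IsCoprime b (X ^ N) := by
    apply IsCoprime.pow_right
    refine ((irreducible_X (R := F)).coprime_iff_not_dvd.mpr ?_).symm
    intro h
    rw [X_dvd_iff] at h
    exact hb0 h
  obtain ⟨u, v, huv⟩ := hcop
  refine ⟨u * a, ?_⟩
  have hpb : ps b ≠ 0 := ps_ne hbne
  have hinv : (ps b)⁻¹ ∈ OInf F := by
    show ((ps b)⁻¹).intDegree ≤ 0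
    rw [RatFunc.intDegree_inv, intDegree_ps hbne, hbt]; simp
  have hone : ps u * ps b + ps v * ((RatFunc.X : RatFunc F)⁻¹) ^ N = 1 := by
    have := congrArg ps huv
    rw [map_add, map_mul, map_mul, map_pow, ps_X, map_one] at this
    exact this
  have hkey : (x - ps (u * a)) / ((RatFunc.X : RatFunc F)⁻¹) ^ N = ps a * ps v * (ps b)⁻¹ := by
    have hN : ((RatFunc.X : RatFunc F)⁻¹) ^ N ≠ 0 := pow_ne_zero _ (inv_ne_zero t_ne)
    rw [div_eq_iff hN, hxab, map_mul]
    field_simp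
    linear_combination (-(ps a)) * hone
  rw [hkey]
  exact (OInf F).mul_mem ((OInf F).mul_mem (ps_mem a) (ps_mem v)) hinv

section Local

variable {L : Type} [Field L] {O : ValuationSubring L} {π : L}

theorem mem_max (h : Loc L O π) (x : O) :
    x ∈ IsLocalRing.maximalIdeal O ↔ (x : L) / π ∈ O := by
  rw [IsLocalRing.mem_maximalIdeal, mem_nonunits_iff]
  by_cases hx : (x : L) = 0
  · constructor
    · intro _; rw [hx, zero_div]; exact O.zero_mem
    · intro _ hu
      have : x = 0 := by ext; exact hx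
      rw [this] at hu
      exact not_isUnit_zero hu
  · rw [← h.unif x x.2 hx]
    apply not_congr
    constructor
    · rintro ⟨u, hu⟩
      have h1 : (x : L)⁻¹ = ((u⁻¹ : Oˣ) : O) := by
        have h2 : ((u : O) : L) * ((u⁻¹ : Oˣ) : O) = 1 := by
          rw [← MulMemClass.coe_mul, Units.mul_inv]; rfl
        rw [hu] at h2
        exact inv_eq_of_mul_eq_one_right h2
      rw [h1]; exact SetLike.coe_mem _
    · intro hinv
      refine ⟨⟨x, ⟨(x : L)⁻¹, hinv⟩, ?_, ?_⟩, rfl⟩
      · ext; exact mul_inv_cancel₀ hx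
      · ext; exact inv_mul_cancel₀ hx

theorem max_eq (h : Loc L O π) :
    IsLocalRing.maximalIdeal O = Ideal.span {(⟨π, h.pi_mem⟩ : O)} := by
  ext x
  rw [mem_max h, Ideal.mem_span_singleton]
  constructor
  · intro hx
    refine ⟨⟨(x : L) / π, hx⟩, ?_⟩
    ext
    show (x : L) = π * (x / π)
    rw [mul_div_cancel₀ _ h.pi_ne]
  · rintro ⟨y, rfl⟩
    show (π * (y : L)) / π ∈ O
    rw [mul_div_cancel_left₀ _ h.pi_ne]
    exact y.2

theorem mem_pow (h : Loc L O π) (N : ℕ) (x : O) :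
    x ∈ IsLocalRing.maximalIdeal O ^ N ↔ (x : L) / π ^ N ∈ O := by
  rw [max_eq h, Ideal.span_singleton_pow, Ideal.mem_span_singleton]
  have hpN : π ^ N ≠ 0 := pow_ne_zero _ h.pi_ne
  constructor
  · rintro ⟨y, rfl⟩
    show (π ^ N * (y : L)) / π ^ N ∈ O
    rw [mul_div_cancel_left₀ _ hpN]
    exact y.2
  · intro hx
    refine ⟨⟨(x : L) / π ^ N, hx⟩, ?_⟩
    ext
    show (x : L) = π ^ N * (x / π ^ N)
    rw [mul_div_cancel₀ _ hpN]

end Local

theorem card_adj (F : Type) [Field F] [Finite F] (P : F[X]) (hP : P.Monic) :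
    Nat.card (AdjoinRoot P) = Nat.card F ^ P.natDegree := by
  have : Module.Finite F (AdjoinRoot P) := (AdjoinRoot.powerBasis' hP).finite
  rw [Module.natCard_eq_pow_finrank (K := F), (AdjoinRoot.powerBasis' hP).finrank,
    AdjoinRoot.powerBasis'_dim]

section Main

variable {L : Type} [Field L] {O : ValuationSubring L} {ι : RatFunc F →+* L}

/-- The ring homomorphism to the local ring. -/
noncomputable def Ps (h : IsComp F (Iinf F) (RatFunc.X)⁻¹ L O ι) : F[X] →+* O :=
  (ι.comp ps).codRestrict O (fun p => (h.mem _).mpr (ps_mem p))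

theorem Ps_coe (h : IsComp F (Iinf F) (RatFunc.X)⁻¹ L O ι) (p : F[X]) :
    ((Ps h p : O) : L) = ι (ps p) := rfl

theorem exists_iso (h : IsComp F (Iinf F) (RatFunc.X)⁻¹ L O ι) (N : ℕ) (J : Ideal O)
    (hJ : ∀ x : O, x ∈ J ↔ (x : L) / (ι (RatFunc.X)⁻¹) ^ N ∈ O) :
    ∃ e : (O ⧸ J) ≃+* AdjoinRoot ((X : F[X]) ^ N), ∀ p : F[X],
      e (Ideal.Quotient.mk J (Ps h p)) = AdjoinRoot.mk (X ^ N) p := by
  have hker : ∀ p : F[X], Ps h p ∈ J ↔ X ^ N ∣ p := by
    intro p
    rw [hJ, Ps_coe, ← map_pow, ← map_div₀, h.mem]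
    exact ps_div_mem p N
  let g : AdjoinRoot ((X : F[X]) ^ N) →+* O ⧸ J :=
    Ideal.Quotient.lift (Ideal.span {(X : F[X]) ^ N}) ((Ideal.Quotient.mk J).comp (Ps h)) (by
      intro a ha
      rw [Ideal.mem_span_singleton] at ha
      show Ideal.Quotient.mk J (Ps h a) = 0
      rw [Ideal.Quotient.eq_zero_iff_mem, hker]
      exact ha)
  have hg : ∀ p : F[X], g (AdjoinRoot.mk (X ^ N) p) = Ideal.Quotient.mk J (Ps h p) :=
    fun p => Ideal.Quotient.lift_mk _ _ _
  have hinj : Function.Injective g := by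
    rw [injective_iff_map_eq_zero]
    intro x hx
    obtain ⟨p, rfl⟩ := AdjoinRoot.mk_surjective x
    rw [hg, Ideal.Quotient.eq_zero_iff_mem, hker] at hx
    exact AdjoinRoot.mk_eq_zero.mpr hx
  have hsurj : Function.Surjective g := by
    intro y
    obtain ⟨z, rfl⟩ := Ideal.Quotient.mk_surjective y
    obtain ⟨x, hx⟩ := h.dense (z : L) N
    have hpN : (ι (RatFunc.X)⁻¹) ^ N ≠ 0 := pow_ne_zero _ h.loc.pi_ne
    have hπN : (ι (RatFunc.X)⁻¹) ^ N ∈ O := pow_mem h.loc.pi_mem N
    have hxO : ι x ∈ O := by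
      have h1 : ι x = z - ((z : L) - ι x) / (ι (RatFunc.X)⁻¹) ^ N * (ι (RatFunc.X)⁻¹) ^ N := by
        rw [div_mul_cancel₀ _ hpN]; ring
      rw [h1]
      exact sub_mem z.2 (mul_mem hx hπN)
    obtain ⟨p, hp⟩ := approx x ((h.mem x).mp hxO) N
    refine ⟨AdjoinRoot.mk (X ^ N) p, ?_⟩
    rw [hg, Ideal.Quotient.eq, hJ]
    have h2 : ι ((x - ps p) / ((RatFunc.X : RatFunc F)⁻¹) ^ N) ∈ O := (h.mem _).mpr hp
    rw [map_div₀, map_pow, map_sub] at h2
    have h3 : (((Ps h p - z : O)) : L) / (ι (RatFunc.X)⁻¹) ^ N =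
        -(((z : L) - ι x) / (ι (RatFunc.X)⁻¹) ^ N) -
          (ι x - ι (ps p)) / (ι (RatFunc.X)⁻¹) ^ N := by
      show (ι (ps p) - (z : L)) / _ = _
      ring
    rw [h3]
    exact sub_mem (neg_mem hx) h2
  let e := RingEquiv.ofBijective g ⟨hinj, hsurj⟩
  refine ⟨e.symm, fun p => ?_⟩
  rw [RingEquiv.symm_apply_eq]
  exact (hg p).symm

end Main

end Pool.AVS.RII

namespace Pool.AVS

open Polynomial Matrix Pool.AVR

theorem rii_thm : RIIStmt := by
  intro F _ _ L _ O ι h
  have hX : Nat.card (AdjoinRoot (X : F[X])) = Nat.card F := by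
    rw [RII.card_adj F X monic_X, natDegree_X, pow_one]
  refine ⟨?_, hX, ?_⟩
  · obtain ⟨e, _⟩ := RII.exists_iso h 1 (IsLocalRing.maximalIdeal O) (fun x => by
      rw [RII.mem_max h.loc, pow_one])
    have h1 : kap O = Nat.card (AdjoinRoot ((X : F[X]) ^ 1)) := Nat.card_congr e.toEquiv
    rw [h1, pow_one, hX]
  · intro N
    obtain ⟨e, he⟩ := RII.exists_iso h N (IsLocalRing.maximalIdeal O ^ N)
      (fun x => RII.mem_pow h.loc N x)
    refine ⟨e, fun M p hpM hp => ?_⟩
    rw [← he]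
    congr 1
    congr 1
    ext
    rw [RII.Ps_coe, RII.ps_reflect M p hpM]

end Pool.AVS
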